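import Pool.Agent.GK.D.D1
import Pool.Agent.GK.D.D2s

/-!
# GK/D-D2: differences (paper D2)

If `P` is not critical or `χ = χ'` at `P`, both pairs agree at all critical places: `d1` twice. Otherwise two steps `d2_step`
lead from `(χ, χ')` to a pair `(ω2, ω2')` with the values `(χ, χ')` at `P` and `ω` at the other critical places. At `P` either
`ω = χ`, `ω' = χ'` or `ω = χ'`, `ω' = χ` (`class_eq`): `d1` twice, in the second case together with `pq_two`.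
-/

namespace Pool.Agent.GK

open Pool.Agent.GJ MulAction Pool.Agent.H73.DU Pool.Agent.H73.AL Pool.Agent.LD Pool.Agent.TS

private theorem D2_all {V T : Finset ℕ} {i : ℕ} {H : Subgroup GQ} {P : Pl} {a b : GQ → ℤˣ}
    (ha : Mulp H a) (hb : Mulp H b) (h1 : EqAt H P a b)
    (h2 : ∀ Q : Pl, Pin V T Q → Crit i H Q → ¬ PEq H P Q → EqAt H Q a b) (Q : Pl)
    (hQ : Pin V T Q) (hc : Crit i H Q) : EqAt H Q a b := by
  by_cases hp : PEq H P Q
  · exact (eqAt_congr hp ha hb).1 h1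
  · exact h2 Q hQ hc hp

/-- the value of `ω'` at `P` -/
private theorem D2_val {H : Subgroup GQ} {P : Pl} {χ χ' ω ω' θ : GQ → ℤˣ}
    (he : EqAt H P (χ * χ') (ω * ω')) (h : EqAt H P ω θ) : EqAt H P ω' (θ * (χ * χ')) := by
  intro x h1 h2
  have h3 := he x h1 h2
  rw [Pi.mul_apply, h3, Pi.mul_apply, ← h x h1 h2, ← mul_assoc, Int.units_mul_self, one_mul]

theorem d2 {V T : Finset ℕ} (hTp : ∀ p ∈ T, p.Prime) (h2 : 2 ∈ T) {i n B : ℕ}
    (hV : ∃ P : Pl, Pin V T P) {H : Subgroup GQ} (hH : Ci V T i H) {P : Pl} (hP : Pin V T P)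
    {χ χ' ω ω' : GQ → ℤˣ} (h : Pair V T i H P χ χ') (h' : Pair V T i H P ω ω')
    (he : EqAt H P (χ * χ') (ω * ω')) (hn : n ∣ 2 * H.index) (hB : 16 * H.index ≤ B) :
    (pq H χ - pq H χ') - (pq H ω - pq H ω') ∈ EY V T (i + 1) n B := by
  have hd1 : ∀ {a b : GQ → ℤˣ}, GT V T i H a → GT V T i H b →
      (∀ Q : Pl, Pin V T Q → Crit i H Q → EqAt H Q a b) →
      pq H a - pq H b ∈ EY V T (i + 1) n B :=
    fun ha hb hab => d1 hTp h2 hV hH ha hb hab hn hB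
  by_cases hc : Crit i H P
  swap
  · have hnp : ∀ Q : Pl, Crit i H Q → ¬ PEq H P Q := fun Q hQ hp => hc ((crit_congr hp).2 hQ)
    exact AddSubgroup.sub_mem _ (hd1 h.l h.r fun Q hQ hcQ => h.eq Q hQ hcQ (hnp Q hcQ))
      (hd1 h'.l h'.r fun Q hQ hcQ => h'.eq Q hQ hcQ (hnp Q hcQ))
  by_cases heq : EqAt H P χ χ'
  · have heq' : EqAt H P ω ω' := by
      by_contra hne
      obtain ⟨x, h1, h3, h4⟩ := ntAt_mul.2 hne
      apply h4
      rw [← he x h1 h3, Pi.mul_apply, heq x h1 h3]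
      exact Int.units_mul_self _
    exact AddSubgroup.sub_mem _
      (hd1 h.l h.r (D2_all h.l.chr.1 h.r.chr.1 heq h.eq))
      (hd1 h'.l h'.r (D2_all h'.l.chr.1 h'.r.chr.1 heq' h'.eq))
  have hne : NtAt H P (χ * χ') := ntAt_mul.2 heq
  obtain ⟨m, hm, hm1⟩ := exists_third hTp h2 hH h.l.chr h'.l.chr
  obtain ⟨ω1, ω1', hp1, e1, e1', e1m, r1⟩ := d2_step hTp h2 hV hH hP hc h hne hm.chr
    (fun Q hQ hcQ _ => ⟨hm.good Q hQ hcQ, (hm1 Q hQ hcQ).1⟩) hn hB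
  have hne1 : NtAt H P (ω1 * ω1') := by
    refine EqAt.nt (EqAt.mul e1 e1').symm ?_
    rw [mul_comm]
    exact hne
  obtain ⟨ω2, ω2', hp2, e2, e2', e2m, r2⟩ := d2_step hTp h2 hV hH hP hc hp1 hne1 h'.l.chr
    (fun Q hQ hcQ hpQ => ⟨h'.l.good Q hQ hcQ, by
      refine EqAt.nt (EqAt.mul (fun x _ _ => rfl) (e1m Q hQ hcQ hpQ)).symm ?_
      rw [mul_comm]
      exact (hm1 Q hQ hcQ).2⟩) hn hB
  have f2 : EqAt H P ω2 χ := e2.trans e1'
  have f2' : EqAt H P ω2' χ' := e2'.trans e1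
  have g2 : ∀ Q : Pl, Pin V T Q → Crit i H Q → ¬ PEq H P Q → EqAt H Q ω2' ω :=
    fun Q hQ hcQ hpQ => (hp2.eq Q hQ hcQ hpQ).symm.trans (e2m Q hQ hcQ hpQ)
  have hsum := AddSubgroup.add_mem _ r1 r2
  rcases class_eq h2 hH.1 hP h.l.chr h.r.chr h'.l.chr (h.l.good P hP hc) (h.r.good P hP hc) hne
    (h'.l.good P hP hc) with hω | hω | hω
  · -- `ω = χ`, `ω' = χ'` at `P`
    have hω' : EqAt H P ω' χ' := by
      have h3 := D2_val he hω
      rwa [← mul_assoc, mul_self_char, one_mul] at h3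
    have k1 := hd1 hp2.l h'.l (D2_all hp2.l.chr.1 h'.l.chr.1 (f2.trans hω.symm) e2m)
    have k2 := hd1 hp2.r h'.r (D2_all hp2.r.chr.1 h'.r.chr.1 (f2'.trans hω'.symm)
      fun Q hQ hcQ hpQ => (g2 Q hQ hcQ hpQ).trans (h'.eq Q hQ hcQ hpQ))
    have h3 := AddSubgroup.add_mem _ hsum (AddSubgroup.sub_mem _ k1 k2)
    have h4 : (pq H χ - pq H χ') - (pq H ω - pq H ω') =
        ((pq H χ - pq H χ') - (pq H ω1 - pq H ω1') +
          ((pq H ω1 - pq H ω1') - (pq H ω2 - pq H ω2'))) +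
          ((pq H ω2 - pq H ω) - (pq H ω2' - pq H ω')) := by abel
    rw [h4]
    exact h3
  · -- `ω = χ'`, `ω' = χ` at `P`
    have hω' : EqAt H P ω' χ := by
      have h3 := D2_val he hω
      rwa [mul_comm χ χ', ← mul_assoc, mul_self_char, one_mul] at h3
    have k1 := hd1 hp2.l h'.r (D2_all hp2.l.chr.1 h'.r.chr.1 (f2.trans hω'.symm)
      fun Q hQ hcQ hpQ => (e2m Q hQ hcQ hpQ).trans (h'.eq Q hQ hcQ hpQ))
    have k2 := hd1 hp2.r h'.l (D2_all hp2.r.chr.1 h'.l.chr.1 (f2'.trans hω.symm) g2)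
    have t1 := pq_two hTp h2 hV hH h'.l (le_refl H) hH.1 hn
      (by omega : 4 * H.index ≤ B)
    have t2 := pq_two hTp h2 hV hH h'.r (le_refl H) hH.1 hn
      (by omega : 4 * H.index ≤ B)
    have h3 := AddSubgroup.add_mem _ (AddSubgroup.add_mem _ hsum (AddSubgroup.sub_mem _ k1 k2))
      (AddSubgroup.sub_mem _ t2 t1)
    have h4 : (pq H χ - pq H χ') - (pq H ω - pq H ω') =
        (((pq H χ - pq H χ') - (pq H ω1 - pq H ω1') +
          ((pq H ω1 - pq H ω1') - (pq H ω2 - pq H ω2'))) +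
          ((pq H ω2 - pq H ω') - (pq H ω2' - pq H ω))) +
          ((2 : ℤ) • pq H ω' - (2 : ℤ) • pq H ω) := by
      rw [two_smul, two_smul]
      abel
    rw [h4]
    exact h3
  · -- impossible
    exfalso
    have h3 := D2_val he hω
    rw [mul_self_char] at h3
    exact ntAt_iff.1 (h'.r.good P hP hc) h3

end Pool.Agent.GK
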