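import Pool.Agent.GK.D.D2
import Pool.Agent.GJ.D.D3z

/-!
# GK/D-D3: a quadratic extension in which the place splits (paper D3)

If `P` is not critical or `χ = χ'` at `P`, both pairs agree at all critical places: `d1` twice. Otherwise `d3_zeta` gives
characters `z1`, `z2` of `H'` and the difference of the relations `d4_mem` for `z1` and `z2` compares their pair with the pair of
the norms; `d2` for `H` and for `H'`.
-/

namespace Pool.Agent.GK

open Pool.Agent.GJ MulAction Pool.Agent.H73.DU Pool.Agent.H73.AL Pool.Agent.LD Pool.Agent.TS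

private theorem D3_eq {H H' : Subgroup GQ} {P : Pl} {a b : GQ → ℤˣ} (hle : H' ≤ H)
    (hs : P.D ⊓ H ≤ H') : EqAt H' P a b ↔ EqAt H P a b :=
  ⟨fun h x h1 h2 => h x h1 (hs (Subgroup.mem_inf.2 ⟨h1, h2⟩)), fun h x h1 h2 => h x h1 (hle h2)⟩

private theorem D3_all {V T : Finset ℕ} {i : ℕ} {H : Subgroup GQ} {P : Pl} {a b : GQ → ℤˣ}
    (h : Pair V T i H P a b) (h1 : EqAt H P a b) (Q : Pl)
    (hQ : Pin V T Q) (hc : Crit i H Q) : EqAt H Q a b := by
  by_cases hp : PEq H P Q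
  · exact (eqAt_congr hp h.l.chr.1 h.r.chr.1).1 h1
  · exact h.eq Q hQ hc hp

private theorem D3_nc {V T : Finset ℕ} {i : ℕ} {H : Subgroup GQ} {P : Pl} {a b : GQ → ℤˣ}
    (h : Pair V T i H P a b) (h1 : ¬ Crit i H P) (Q : Pl)
    (hQ : Pin V T Q) (hc : Crit i H Q) : EqAt H Q a b :=
  h.eq Q hQ hc fun hp => h1 ((crit_congr hp).2 hc)

private theorem D3_tr {H : Subgroup GQ} {P : Pl} {a : GQ → ℤˣ} (h : NtAt H P a) : ¬ Tr H a := by
  obtain ⟨x, -, h1, h2⟩ := h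
  exact fun h3 => h2 (h3 x h1)

theorem d3 {V T : Finset ℕ} (hTp : ∀ p ∈ T, p.Prime) (h2 : 2 ∈ T) {i n B : ℕ}
    (hV : ∃ P : Pl, Pin V T P) {H H' : Subgroup GQ} (hH : Ci V T i H)
    (hH' : IsOpen (H' : Set GQ)) (hle : H' ≤ H) (hi : H'.relIndex H = 2) {P : Pl}
    (hP : Pin V T P) (hs : P.D ⊓ H ≤ H') {χ χ' η η' : GQ → ℤˣ} (h : Pair V T i H P χ χ')
    (h' : Pair V T i H' P η η') (he : EqAt H' P (χ * χ') (η * η')) (hn : n ∣ 2 * H.index)
    (hB : 32 * H.index ≤ B) :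
    (pq H χ - pq H χ') - (pq H' η - pq H' η') ∈ EY V T (i + 1) n B := by
  have hidx : H'.index = 2 * H.index := by
    rw [← Subgroup.relIndex_mul_index hle, hi]
  have hCi' : Ci V T i H' := hH.mono hle hH'
  have hn' : n ∣ 2 * H'.index := by
    rw [hidx]
    exact Dvd.dvd.mul_left hn 2
  have hB' : 16 * H'.index ≤ B := by
    rw [hidx]
    omega
  have hB2 : 16 * H.index ≤ B := by omega
  by_cases hc : Crit i H P
  swap
  · have hc' : ¬ Crit i H' P := fun h3 => hc ((crit_split hle hs).1 h3)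
    exact AddSubgroup.sub_mem _ (d1 hTp h2 hV hH h.l h.r (D3_nc h hc) hn hB2)
      (d1 hTp h2 hV hCi' h'.l h'.r (D3_nc h' hc') hn' hB')
  by_cases heq : EqAt H P χ χ'
  · have heq' : EqAt H' P η η' := by
      by_contra hne
      obtain ⟨x, h1, h3, h4⟩ := ntAt_mul.2 hne
      apply h4
      rw [← he x h1 h3, Pi.mul_apply, heq x h1 (hle h3)]
      exact Int.units_mul_self _
    exact AddSubgroup.sub_mem _ (d1 hTp h2 hV hH h.l h.r (D3_all h heq) hn hB2)
      (d1 hTp h2 hV hCi' h'.l h'.r (D3_all h' heq') hn' hB')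
  have hc' : Crit i H' P := (crit_split hle hs).2 hc
  have hne : NtAt H' P (η * η') := by
    refine he.nt ?_
    rw [ntAt_mul, D3_eq hle hs]
    exact heq
  obtain ⟨τ, hτ, hτ'⟩ : ∃ τ ∈ H, τ ∉ H' := by
    refine SetLike.not_le_iff_exists.1 fun h3 => ?_
    rw [Subgroup.relIndex_eq_one.2 h3] at hi
    exact absurd hi (by norm_num)
  obtain ⟨z1, z2, hz, e1, e2, hN, f2, f1⟩ := d3_zeta hTp h2 hH hH' hle hi hτ hτ' hP hs h'.l.chr
    h'.r.chr (h'.l.good P hP hc') (h'.r.good P hP hc') hne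
  have t1 : ¬ Tr H (nm H' τ z1) := D3_tr (hN.r.good P hP hc)
  have t2 : ¬ Tr H (nm H' τ z2) := D3_tr (hN.l.good P hP hc)
  have hB4 : 4 * H.index ≤ B := by omega
  have r1 := d4_mem hH hH' hle hi hτ hτ' hz.l.chr hz.l.ttr hN.r.good t1 hn hB4
  have r2 := d4_mem hH hH' hle hi hτ hτ' hz.r.chr hz.r.ttr hN.l.good t2 hn hB4
  have q1 : pq H (nm H' τ z1) = pc (kr H (nm H' τ z1)) := by
    unfold pq
    rw [if_neg t1]
  have q2 : pq H (nm H' τ z2) = pc (kr H (nm H' τ z2)) := by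
    unfold pq
    rw [if_neg t2]
  have s1 := d2 hTp h2 hV hCi' hP h' hz (EqAt.mul e1.symm e2.symm) hn' hB'
  have s2 := d2 hTp h2 hV hH hP h hN
    (((D3_eq hle hs).1 he).trans (EqAt.mul f2.symm f1.symm)) hn hB2
  rw [← q1] at r1
  rw [← q2] at r2
  have h5 := AddSubgroup.sub_mem _ (AddSubgroup.sub_mem _ s2 s1) (AddSubgroup.sub_mem _ r1 r2)
  have h6 : (pq H χ - pq H χ') - (pq H' η - pq H' η') =
      ((pq H χ - pq H χ') - (pq H (nm H' τ z2) - pq H (nm H' τ z1)) -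
        ((pq H' η - pq H' η') - (pq H' z1 - pq H' z2))) -
        (((pq H' z1 + pq H (nm H' τ z1)) - pc H') - ((pq H' z2 + pq H (nm H' τ z2)) - pc H')) := by
    abel
  rw [h6]
  exact h5

end Pool.Agent.GK
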