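import Pool.Agent.GK.D.MemA

/-!
# GK/D-MemB: elements of `EY V T (i + 1) n B` from a good character

The kernel of a good character of `H` on a subgroup `J` of `H` has level `i + 1`; so `2 [J, χ]`, and `[J, χ]` itself if `J` has
index `2` in a subgroup of `H` or if the kernel has level `i + 2`, is in `EY V T (i + 1) n B`.
-/

namespace Pool.Agent.GK

open Pool.Agent.GJ MulAction Pool.Agent.H73.DU Pool.Agent.H73.AL Pool.Agent.LD Pool.Agent.TS

private theorem MemB_kr_eq {J : Subgroup GQ} {χ : GQ → ℤˣ} (hm : Mulp J χ) (hT : Tr J χ) : kr J χ = J := by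
  ext g
  rw [mem_kr hm]
  exact ⟨fun h => h.1, fun h => ⟨h, hT g h⟩⟩

private theorem MemB_ci {V T : Finset ℕ} {i : ℕ} {H J : Subgroup GQ} (hH : Ci V T i H) {χ : GQ → ℤˣ}
    (hχ : GT V T i H χ) (hJ : J ≤ H) (hJo : IsOpen (J : Set GQ)) : Ci V T (i + 1) (kr J χ) :=
  (good_iff (hH.mono hJ hJo) (hχ.mono hH hJ hJo).chr).1 (hχ.mono hH hJ hJo).good

private theorem MemB_dvd {H J : Subgroup GQ} (hJ : J ≤ H) {n : ℕ} (hn : n ∣ 2 * H.index) :
    n ∣ 2 * J.index :=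
  hn.trans (Nat.mul_dvd_mul_left 2 (Subgroup.index_dvd_of_le hJ))

/-- the case of a character that is trivial on `J` -/
private theorem MemB_tr {V T : Finset ℕ} (hTp : ∀ p ∈ T, p.Prime) (h2 : 2 ∈ T) {i n B : ℕ}
    (hV : ∃ P : Pl, Pin V T P) {H J : Subgroup GQ} (hH : Ci V T i H) {χ : GQ → ℤˣ}
    (hχ : GT V T i H χ) (hJ : J ≤ H) (hJo : IsOpen (J : Set GQ)) (hn : n ∣ 2 * H.index)
    (hB : 4 * J.index ≤ B) (hT : Tr J χ) : pq J χ ∈ EY V T (i + 1) n B := by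
  have h1 := MemB_ci hH hχ hJ hJo
  rw [MemB_kr_eq (hχ.chr.1.mono hJ) hT] at h1
  unfold pq
  rw [if_pos hT]
  exact two_pc hTp h2 hV h1 (MemB_dvd hJ hn) hB

/-- `2 [J, χ]` for a good character `χ` of `H`, `J ≤ H` -/
theorem pq_two {V T : Finset ℕ} (hTp : ∀ p ∈ T, p.Prime) (h2 : 2 ∈ T) {i n B : ℕ}
    (hV : ∃ P : Pl, Pin V T P) {H J : Subgroup GQ} (hH : Ci V T i H) {χ : GQ → ℤˣ}
    (hχ : GT V T i H χ) (hJ : J ≤ H) (hJo : IsOpen (J : Set GQ)) (hn : n ∣ 2 * H.index)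
    (hB : 4 * J.index ≤ B) : (2 : ℤ) • pq J χ ∈ EY V T (i + 1) n B := by
  by_cases hT : Tr J χ
  · exact AddSubgroup.zsmul_mem _ (MemB_tr hTp h2 hV hH hχ hJ hJo hn hB hT) 2
  · have h3 := kr_index' (hχ.chr.1.mono hJ) hT
    unfold pq
    rw [if_neg hT]
    refine mem_two (MemB_ci hH hχ hJ hJo) ?_ ?_
    · rw [h3]
      exact MemB_dvd hJ hn
    · rw [h3]
      omega

/-- `[J, χ]` for a good character `χ` of `H`, `J` of index `2` in a subgroup of `H` -/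
theorem pq_quad {V T : Finset ℕ} (hTp : ∀ p ∈ T, p.Prime) (h2 : 2 ∈ T) {i n B : ℕ}
    (hV : ∃ P : Pl, Pin V T P) {H J J' : Subgroup GQ} (hH : Ci V T i H) {χ : GQ → ℤˣ}
    (hχ : GT V T i H χ) (hJ' : J' ≤ H) (hJ : J ≤ J') (hi : J.relIndex J' = 2)
    (hJo : IsOpen (J : Set GQ)) (hn : n ∣ 2 * H.index)
    (hB : 4 * J.index ≤ B) : pq J χ ∈ EY V T (i + 1) n B := by
  have hJH : J ≤ H := hJ.trans hJ'
  have hJ'o : IsOpen (J' : Set GQ) := Subgroup.isOpen_mono hJ hJo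
  by_cases hT : Tr J χ
  · exact MemB_tr hTp h2 hV hH hχ hJH hJo hn hB hT
  · have hT' : ¬ Tr J' χ := fun h => hT fun g hg => h g (hJ hg)
    have h3 := kr_index' (hχ.chr.1.mono hJH) hT
    have hle : kr J χ ≤ kr J' χ := by
      rw [kr_mono (hχ.chr.1.mono hJ') hJ]
      exact inf_le_right
    have h4 : (kr J χ).relIndex (kr J' χ) * (kr J' χ).relIndex J' = (kr J χ).relIndex J * J.relIndex J' := by
      rw [Subgroup.relIndex_mul_relIndex _ _ _ hle (kr_le J' χ),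
        Subgroup.relIndex_mul_relIndex _ _ _ (kr_le J χ) hJ]
    rw [kr_index (hχ.chr.1.mono hJ') hT', kr_index (hχ.chr.1.mono hJH) hT, hi] at h4
    unfold pq
    rw [if_neg hT]
    refine quad_mem (MemB_ci hH hχ hJ' hJ'o) (MemB_ci hH hχ hJH hJo).op hle (by omega) ?_ ?_
    · rw [h3]
      exact MemB_dvd hJH hn
    · rw [h3]
      omega

/-- `[J, χ]` if the kernel of `χ` on `J` has level `i + 2` and is totally complex -/
theorem pq_deep {V T : Finset ℕ} (hTp : ∀ p ∈ T, p.Prime) (h2 : 2 ∈ T) {i n B : ℕ}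
    (hV : ∃ P : Pl, Pin V T P) {H J : Subgroup GQ} (hH : Ci V T i H) {χ : GQ → ℤˣ}
    (hχ : GT V T i H χ) (hJ : J ≤ H) (hJo : IsOpen (J : Set GQ))
    (hd : Ci V T (i + 2) (kr J χ)) (hTC : TC (kr J χ)) (hn : n ∣ 2 * H.index)
    (hB : 4 * J.index ≤ B) : pq J χ ∈ EY V T (i + 1) n B := by
  by_cases hT : Tr J χ
  · exact MemB_tr hTp h2 hV hH hχ hJ hJo hn hB hT
  · have h3 := kr_index' (hχ.chr.1.mono hJ) hT
    unfold pq
    rw [if_neg hT]
    refine mem_Ey ⟨MemB_ci hH hχ hJ hJo, Or.inl ⟨hd, hTC⟩⟩ ?_ ?_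
    · rw [h3]
      exact MemB_dvd hJ hn
    · rw [h3]
      omega

end Pool.Agent.GK
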