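import Pool.Agent.GK.D.MemA
import Pool.Agent.GJ.D.Plc
import Pool.Agent.GJ.R.D4
import Pool.Agent.GJ.R.NmC

/-!
# GK/D-MemE: the relation of the norm in `EY`

The kernel `K` of the norm of `ζ` has level `i + 1` and index `2 * H.index`; the function of the relation `d4` is the double of `pc K` (`mem_two`) or `pc L` with `L` of index `2` in `K` (`quad_mem`).
-/

namespace Pool.Agent.GK

open Pool.Agent.GJ MulAction Pool.Agent.H73.DU Pool.Agent.H73.AL Pool.Agent.LD Pool.Agent.TS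

theorem d4_mem {V T : Finset ℕ} {i n B : ℕ} {H H' : Subgroup GQ} (hH : Ci V T i H)
    (hH' : IsOpen (H' : Set GQ)) (hle : H' ≤ H) (hi : H'.relIndex H = 2) {τ : GQ} (hτ : τ ∈ H)
    (hτ' : τ ∉ H') {ζ : GQ → ℤˣ} (hζ : IsChr H' ζ) (hT : TTr T H' ζ)
    (hg : Good V T i H (nm H' τ ζ)) (hn1 : ¬ Tr H (nm H' τ ζ)) (hn : n ∣ 2 * H.index)
    (hB : 4 * H.index ≤ B) :
    (pq H' ζ + pc (kr H (nm H' τ ζ))) - pc H' ∈ EY V T (i + 1) n B := by
  have hNc : IsChr H (nm H' τ ζ) := nm_chr hH' hle hi hτ hτ' hζ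
  have hK : Ci V T (i + 1) (kr H (nm H' τ ζ)) := (good_iff hH hNc).1 hg
  have hKi : (kr H (nm H' τ ζ)).index = 2 * H.index := kr_index' hNc.1 hn1
  obtain ⟨f, hf, hfU⟩ := d4 hH.op hH' hle hi hτ hτ' hζ hT hn1
  refine mem_congr (g := f) (fun U hU => ?_) ?_
  · rw [Pi.sub_apply, Pi.add_apply, ← hfU U hU, add_sub_cancel_right]
  · rcases hf with rfl | ⟨L, hLo, hLK, hLi, rfl⟩
    · refine mem_two hK ?_ ?_
      · rw [hKi]
        exact hn
      · rw [hKi]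
        omega
    · have hL : L.index = 2 * (2 * H.index) := by
        rw [← Subgroup.relIndex_mul_index hLK, hLi, hKi]
      refine quad_mem hK hLo hLK hLi ?_ ?_
      · rw [hL]
        exact hn.trans ⟨2, by ring⟩
      · rw [hL]
        omega

theorem norm_mem {V T : Finset ℕ} (hTp : ∀ p ∈ T, p.Prime) (h2 : 2 ∈ T) {i n B : ℕ}
    (hV : ∃ P : Pl, Pin V T P) {H H' : Subgroup GQ} (hH : Ci V T i H)
    (hH' : Ci V T (i + 1) H') (hle : H' ≤ H) (hi : H'.relIndex H = 2) {τ : GQ} (hτ : τ ∈ H)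
    (hτ' : τ ∉ H') {ζ : GQ → ℤˣ} (hζ : IsChr H' ζ) (hT : TTr T H' ζ)
    (hg : Good V T i H (nm H' τ ζ)) (hn1 : ¬ Tr H (nm H' τ ζ)) (hn : n ∣ 2 * H.index)
    (hB : 8 * H.index ≤ B) :
    pc H' - pq H (nm H' τ ζ) ∈ EY V T (i + 1) n B := by
  have hI : H'.index = 2 * H.index := by
    rw [← Subgroup.relIndex_mul_index hle, hi]
  have h1 := d4_mem hH hH'.op hle hi hτ hτ' hζ hT hg hn1 hn (B := B) (by omega)
  have h3 : pq H' ζ ∈ EY V T (i + 1) n B := by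
    refine pq_mem hTp h2 hV hH' hζ ?_ ?_
    · rw [hI]
      exact hn.trans ⟨2, by ring⟩
    · rw [hI]
      omega
  have h4 : pq H (nm H' τ ζ) = pc (kr H (nm H' τ ζ)) := if_neg hn1
  have h5 : pc H' - pq H (nm H' τ ζ) =
      pq H' ζ - ((pq H' ζ + pc (kr H (nm H' τ ζ))) - pc H') := by
    rw [h4]
    abel
  rw [h5]
  exact AddSubgroup.sub_mem _ h3 h1

end Pool.Agent.GK
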