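import Pool.Agent.GK.D.MemA
import Pool.Agent.GK.D.MemB
import Pool.Agent.GJ.D.MemC
import Pool.Agent.GK.D.MemE

/-!
# GK/D-Mem: elements of `EY V T (i + 1) n B` (imports)
-/
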